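import Pool.Agent.H.MP_56d54d_al.C

namespace Pool.Agent.Results.MP_56d54d_al.No

open Pool.Agent.H.MP_56d54d_al

/-- There is an F-noetherian ring that is not directed F-noetherian. -/
theorem result : ∃ (R : Type) (_ : Ring R), FNoeth R ∧ ¬ DirFNoeth R :=
  ⟨_, inferInstance, main⟩

end Pool.Agent.Results.MP_56d54d_al.No
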